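import Pool.Agent.Lib.MP_b1a3a4_al.MVS.LG.Iface

/-!
# Project MVS, part IV, module BAR: the bar complex is a free resolution
-/

set_option autoImplicit false
set_option linter.all false

namespace Pool.Agent.Lib.MP_b1a3a4_al.MVS.LG.H67

open Finsupp
open Pool.Agent.Lib.MP_b1a3a4_al.MVS Pool.Agent.Lib.MP_b1a3a4_al.MVS.LG

section bar

variable {S : Type} [Group S]

lemma bd_single (q : ℕ) (t : Fin (q + 2) → S) (a : ℤ) : bd S q (single t a) =
    a • ∑ k : Fin (q + 2), ((-1 : ℤ) ^ (k : ℕ)) • single (fun i => t (k.succAbove i)) (1 : ℤ) := by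
  simp [bd]

lemma act_single {q : ℕ} (s : S) (t : Fin (q + 1) → S) (a : ℤ) :
    act s (single t a) = single (fun i => s * t i) a := by
  simp [act, mapDomain_single]

lemma act_one' {q : ℕ} (v : BC S q) : act (1 : S) v = v := by
  induction v using Finsupp.induction_linear with
  | zero => rw [map_zero]
  | add f g hf hg => rw [map_add, hf, hg]
  | single t a => rw [act_single]; simp

lemma bd_act (q : ℕ) (s : S) (v : BC S (q + 1)) : bd S q (act s v) = act s (bd S q v) := by
  induction v using Finsupp.induction_linear with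
  | zero => simp only [map_zero]
  | add f g hf hg => simp only [map_add, hf, hg]
  | single t a =>
    rw [act_single, bd_single, bd_single, map_zsmul, map_sum]
    congr 1
    refine Finset.sum_congr rfl fun k _ => ?_
    rw [map_zsmul, act_single]

/-- the contraction -/
noncomputable def con (S : Type) [Group S] (q : ℕ) : BC S q →+ BC S (q + 1) :=
  Finsupp.mapDomain.addMonoidHom (fun t => (Fin.cons (1 : S) t : Fin (q + 2) → S))

lemma con_single (q : ℕ) (t : Fin (q + 1) → S) (a : ℤ) :
    con S q (single t a) = single (Fin.cons (1 : S) t : Fin (q + 2) → S) a := by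
  simp [con, mapDomain_single]

/-- the augmentation -/
noncomputable def au (S : Type) (q : ℕ) : BC S q →+ ℤ :=
  Finsupp.liftAddHom (fun _ => AddMonoidHom.id ℤ)

lemma au_single (q : ℕ) (t : Fin (q + 1) → S) (a : ℤ) : au S q (single t a) = a := by
  simp [au]

lemma au_act {q : ℕ} (s : S) (v : BC S q) : au S q (act s v) = au S q v := by
  induction v using Finsupp.induction_linear with
  | zero => simp only [map_zero]
  | add f g hf hg => simp only [map_add, hf, hg]
  | single t a => rw [act_single, au_single, au_single]

lemma bd_con (q : ℕ) (v : BC S (q + 1)) :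
    bd S (q + 1) (con S (q + 1) v) = v - con S q (bd S q v) := by
  induction v using Finsupp.induction_linear with
  | zero => simp only [map_zero, sub_zero]
  | add f g hf hg => simp only [map_add, hf, hg]; abel
  | single t a =>
    rw [con_single, bd_single, bd_single, map_zsmul, map_sum, Fin.sum_univ_succ, smul_add]
    have h1 : (fun i : Fin (q + 1 + 1) =>
        (Fin.cons (1 : S) t : Fin (q + 1 + 2) → S) ((0 : Fin (q + 1 + 2)).succAbove i)) = t := by
      funext i
      rw [Fin.zero_succAbove, Fin.cons_succ]
    rw [h1, sub_eq_add_neg]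
    congr 1
    · simp
    · rw [← smul_neg, ← Finset.sum_neg_distrib]
      congr 1
      refine Finset.sum_congr rfl fun k _ => ?_
      rw [map_zsmul, con_single, Fin.val_succ, pow_succ, mul_neg_one, neg_smul]
      congr 3
      funext i
      refine Fin.cases ?_ (fun i => ?_) i
      · rw [Fin.succ_succAbove_zero, Fin.cons_zero, Fin.cons_zero]
      · rw [Fin.succ_succAbove_succ, Fin.cons_succ, Fin.cons_succ]

lemma bd_con0 (v : BC S 0) :
    bd S 0 (con S 0 v) = v - single (fun _ => (1 : S)) (au S 0 v) := by
  induction v using Finsupp.induction_linear with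
  | zero => simp only [map_zero, sub_zero, single_zero]
  | add f g hf hg => simp only [map_add, hf, hg, single_add]; abel
  | single t a =>
    rw [con_single, bd_single, au_single, Fin.sum_univ_two]
    have h1 : (fun i : Fin (0 + 1) =>
        (Fin.cons (1 : S) t : Fin (0 + 2) → S) ((0 : Fin (0 + 2)).succAbove i)) = t := by
      funext i
      rw [Fin.zero_succAbove, Fin.cons_succ]
    have h2 : (fun i : Fin (0 + 1) =>
        (Fin.cons (1 : S) t : Fin (0 + 2) → S) ((1 : Fin (0 + 2)).succAbove i)) =
        fun _ => (1 : S) := by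
      funext i
      have hi : i = (0 : Fin 1) := Subsingleton.elim (α := Fin 1) _ _
      subst hi
      rfl
    rw [h1, h2]
    simp [smul_sub, sub_eq_add_neg]

lemma au_bd (v : BC S 1) : au S 0 (bd S 0 v) = 0 := by
  induction v using Finsupp.induction_linear with
  | zero => simp only [map_zero]
  | add f g hf hg => simp only [map_add, hf, hg, add_zero]
  | single t a =>
    rw [bd_single, map_zsmul, map_sum, Fin.sum_univ_two, map_zsmul, map_zsmul, au_single,
      au_single]
    simp

lemma single_eq {q : ℕ} (t : Fin (q + 2) → S) (a : ℤ) :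
    (single t a : BC S (q + 1)) =
      act (t 0) (con S q (single (fun i => (t 0)⁻¹ * t i.succ) a)) := by
  rw [con_single, act_single]
  congr 1
  funext i
  refine Fin.cases ?_ (fun i => ?_) i
  · rw [Fin.cons_zero, mul_one]
  · rw [Fin.cons_succ, mul_inv_cancel_left]

lemma bd_bd (q : ℕ) (v : BC S (q + 2)) : bd S q (bd S (q + 1) v) = 0 := by
  induction q with
  | zero =>
    induction v using Finsupp.induction_linear with
    | zero => simp only [map_zero]
    | add f g hf hg => simp only [map_add, hf, hg, add_zero]
    | single t a =>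
      rw [single_eq, bd_act, bd_act, bd_con, map_sub, bd_con0, au_bd, single_zero, sub_zero,
        sub_self, map_zero]
  | succ q ih =>
    induction v using Finsupp.induction_linear with
    | zero => simp only [map_zero]
    | add f g hf hg => simp only [map_add, hf, hg, add_zero]
    | single t a =>
      rw [single_eq, bd_act, bd_act, bd_con, map_sub, bd_con, ih, map_zero, sub_zero, sub_self,
        map_zero]

/-! ### the comparison -/

/-- `θ` -/
noncomputable def th (S : Type) [Group S] (q : ℕ) :
    ((Fin q → S) →₀ MonoidAlgebra ℤ S) →+ BC S q :=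
  Finsupp.liftAddHom (fun x =>
    (Finsupp.liftAddHom (fun s =>
      (Finsupp.singleAddHom (Fin.cons s (fun i => s * x i) : Fin (q + 1) → S) :
        ℤ →+ BC S q))).comp MonoidAlgebra.coeffAddEquiv.toAddMonoidHom)

lemma th_single (q : ℕ) (x : Fin q → S) (s : S) (a : ℤ) :
    th S q (single x (MonoidAlgebra.single s a)) =
      single (Fin.cons s (fun i => s * x i) : Fin (q + 1) → S) a := by
  simp [th]

/-- the inverse of `θ` -/
noncomputable def ps (S : Type) [Group S] (q : ℕ) :
    BC S q →+ ((Fin q → S) →₀ MonoidAlgebra ℤ S) :=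
  Finsupp.liftAddHom (fun t =>
    (Finsupp.singleAddHom (fun i => (t 0)⁻¹ * t i.succ) :
      MonoidAlgebra ℤ S →+ ((Fin q → S) →₀ MonoidAlgebra ℤ S)).comp
    (MonoidAlgebra.singleAddHom (t 0)))

lemma ps_single (q : ℕ) (t : Fin (q + 1) → S) (a : ℤ) :
    ps S q (single t a) = single (fun i => (t 0)⁻¹ * t i.succ) (MonoidAlgebra.single (t 0) a) := by
  simp [ps]

/-- induction on free modules over the group ring -/
lemma fm_ind {X : Type} {P : (X →₀ MonoidAlgebra ℤ S) → Prop} (h0 : P 0)
    (hadd : ∀ f g, P f → P g → P (f + g))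
    (hs : ∀ x s a, P (single x (MonoidAlgebra.single s a))) (v : X →₀ MonoidAlgebra ℤ S) : P v := by
  induction v using Finsupp.induction_linear with
  | zero => exact h0
  | add f g hf hg => exact hadd f g hf hg
  | single x b =>
    induction b using MonoidAlgebra.induction_linear with
    | zero => rw [single_zero]; exact h0
    | add f g hf hg => rw [single_add]; exact hadd _ _ hf hg
    | single s a => exact hs x s a

lemma ps_th (q : ℕ) (v : (Fin q → S) →₀ MonoidAlgebra ℤ S) : ps S q (th S q v) = v := by
  refine fm_ind (P := fun v => ps S q (th S q v) = v) ?_ ?_ ?_ v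
  · simp only [map_zero]
  · intro f g hf hg
    simp only [map_add, hf, hg]
  · intro x s a
    rw [th_single, ps_single]
    congr 1
    funext i
    rw [Fin.cons_zero, Fin.cons_succ, inv_mul_cancel_left]

lemma th_ps (q : ℕ) (v : BC S q) : th S q (ps S q v) = v := by
  induction v using Finsupp.induction_linear with
  | zero => simp only [map_zero]
  | add f g hf hg => simp only [map_add, hf, hg]
  | single t a =>
    rw [ps_single, th_single]
    congr 1
    funext i
    refine Fin.cases ?_ (fun i => ?_) i
    · rw [Fin.cons_zero]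
    · rw [Fin.cons_succ, mul_inv_cancel_left]

/-- `θ` as an equivalence -/
noncomputable def the (S : Type) [Group S] (q : ℕ) :
    ((Fin q → S) →₀ MonoidAlgebra ℤ S) ≃+ BC S q where
  toFun := th S q
  invFun := ps S q
  left_inv := ps_th q
  right_inv := th_ps q
  map_add' := map_add _

lemma sact_single {X : Type} (s : S) (x : X) (b : MonoidAlgebra ℤ S) :
    sact s (single x b) = single x (MonoidAlgebra.single s (1 : ℤ) * b) := by
  simp [sact]

lemma sact_add {X : Type} (s : S) (v w : X →₀ MonoidAlgebra ℤ S) :
    sact s (v + w) = sact s v + sact s w := by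
  simp [sact]

lemma sact_zero {X : Type} (s : S) : sact s (0 : X →₀ MonoidAlgebra ℤ S) = 0 := by
  simp [sact]

lemma th_sact (q : ℕ) (s : S) (v : (Fin q → S) →₀ MonoidAlgebra ℤ S) :
    th S q (sact s v) = act s (th S q v) := by
  refine fm_ind (P := fun v => th S q (sact s v) = act s (th S q v)) ?_ ?_ ?_ v
  · simp only [sact_zero, map_zero]
  · intro f g hf hg
    simp only [sact_add, map_add, hf, hg]
  · intro x s' a
    rw [sact_single, MonoidAlgebra.single_mul_single, one_mul, th_single, th_single, act_single]
    congr 1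
    funext i
    refine Fin.cases ?_ (fun i => ?_) i
    · rw [Fin.cons_zero, Fin.cons_zero]
    · rw [Fin.cons_succ, Fin.cons_succ, mul_assoc]

lemma ps_act (q : ℕ) (s : S) (v : BC S q) : ps S q (act s v) = sact s (ps S q v) := by
  have h := th_sact q s (ps S q v)
  rw [th_ps] at h
  rw [← h, ps_th]

/-- an additive equivariant map is linear -/
lemma lin_of {M N : Type} [AddCommGroup M] [AddCommGroup N] [Module (MonoidAlgebra ℤ S) M]
    [Module (MonoidAlgebra ℤ S) N] (f : M →+ N)
    (hf : ∀ (s : S) (v : M), f ((MonoidAlgebra.single s (1 : ℤ) : MonoidAlgebra ℤ S) • v) =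
      (MonoidAlgebra.single s (1 : ℤ) : MonoidAlgebra ℤ S) • f v)
    (b : MonoidAlgebra ℤ S) (v : M) : f (b • v) = b • f v := by
  induction b using MonoidAlgebra.induction_linear with
  | zero => rw [zero_smul, zero_smul, map_zero]
  | add b c hb hc => rw [add_smul, add_smul, map_add, hb, hc]
  | single s a =>
    have h : (MonoidAlgebra.single s a : MonoidAlgebra ℤ S) =
        a • (MonoidAlgebra.single s (1 : ℤ) : MonoidAlgebra ℤ S) := by
      rw [MonoidAlgebra.smul_single, smul_eq_mul, mul_one]
    rw [h, smul_assoc, smul_assoc, map_zsmul, hf]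

/-- the differential of the bar resolution -/
noncomputable def bdl (S : Type) [Group S] (q : ℕ) :
    ((Fin (q + 1) → S) →₀ MonoidAlgebra ℤ S) →ₗ[MonoidAlgebra ℤ S]
      ((Fin q → S) →₀ MonoidAlgebra ℤ S) where
  toFun v := ps S q (bd S q (th S (q + 1) v))
  map_add' v w := by simp only [map_add]
  map_smul' b v := by
    refine lin_of (((ps S q).comp (bd S q)).comp (th S (q + 1))) ?_ b v
    intro s v
    change ps S q (bd S q (th S (q + 1) (sact s v))) = sact s (ps S q (bd S q (th S (q + 1) v)))
    rw [th_sact, bd_act, ps_act]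

/-- the augmentation of the bar resolution -/
noncomputable def aul (S : Type) [Group S] :
    ((Fin 0 → S) →₀ MonoidAlgebra ℤ S) →ₗ[MonoidAlgebra ℤ S] (Triv ℤ S) where
  toFun v := (au S 0 (th S 0 v) : ℤ)
  map_add' v w := by
    rw [map_add, map_add]
    rfl
  map_smul' b v := by
    refine lin_of (N := Triv ℤ S) ((au S 0).comp (th S 0)) ?_ b v
    intro s v
    change (au S 0 (th S 0 (sact s v)) : ℤ) = _
    rw [th_sact, au_act, triv_smul, aug_single, one_mul]
    rfl

/-- the bar resolution -/
noncomputable def barRes (S : Type) [Group S] : GRes ℤ S where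
  X := fun q => (Fin q → S)
  d := bdl S
  ε := aul S
  ε_surj := by
    intro a
    have key : ∀ a : ℤ, au S 0 (th S 0 (ps S 0 (single (fun _ => (1 : S)) a))) = a := by
      intro a
      rw [th_ps, au_single]
    exact ⟨ps S 0 (single (fun _ => (1 : S)) (show ℤ from a)), key a⟩
  ex0 := by
    intro z
    constructor
    · intro h
      have h1 : au S 0 (th S 0 z) = 0 := h
      refine ⟨ps S 1 (con S 0 (th S 0 z)), ?_⟩
      change ps S 0 (bd S 0 (th S 1 (ps S 1 (con S 0 (th S 0 z))))) = z
      rw [th_ps, bd_con0, h1, single_zero, sub_zero, ps_th]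
    · rintro ⟨y, rfl⟩
      change (au S 0 (th S 0 (ps S 0 (bd S 0 (th S 1 y)))) : ℤ) = 0
      rw [th_ps, au_bd]
  ex := by
    intro q z
    constructor
    · intro h
      have h1 : bd S q (th S (q + 1) z) = 0 := by
        have h2 : ps S q (bd S q (th S (q + 1) z)) = 0 := h
        rw [← th_ps q (bd S q (th S (q + 1) z)), h2, map_zero]
      refine ⟨ps S (q + 2) (con S (q + 1) (th S (q + 1) z)), ?_⟩
      change ps S (q + 1) (bd S (q + 1) (th S (q + 2) (ps S (q + 2)
        (con S (q + 1) (th S (q + 1) z))))) = z
      rw [th_ps, bd_con, h1, map_zero, sub_zero, ps_th]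
    · rintro ⟨y, rfl⟩
      change ps S q (bd S q (th S (q + 1) (ps S (q + 1) (bd S (q + 1) (th S (q + 2) y))))) = 0
      rw [th_ps, bd_bd, map_zero]

end bar

/-- Module BAR. -/
theorem bar : BarStatement := by
  intro S _
  refine ⟨barRes S, fun q => the S q, ?_, ?_⟩
  · intro q s v
    exact th_sact q s v
  · intro q v
    change bd S q (th S (q + 1) v) = th S q (ps S q (bd S q (th S (q + 1) v)))
    rw [th_ps]

end Pool.Agent.Lib.MP_b1a3a4_al.MVS.LG.H67
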