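import Pool.Agent.Lib.MP_b1a3a4_al.MVS.LG.Iface

/-!
# Project MVS, part IV, module BARFP: comparison of a resolution with the bar complex
-/

set_option autoImplicit false
set_option linter.all false

namespace Pool.Agent.Lib.MP_b1a3a4_al.MVS.LG.H67

open Finsupp
open Pool.Agent.Lib.MP_b1a3a4_al.MVS Pool.Agent.Lib.MP_b1a3a4_al.MVS.LG

/-- Module BARFP. -/
theorem barfp (hB : BarStatement) (hF : FpresStatement) (hH : HeqStatement) : BarfpStatement := by
  intro S _ k hk
  obtain ⟨E, θ, hθ, hd⟩ := hB S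
  obtain ⟨F, hFin⟩ := (hF (MonoidAlgebra ℤ S) (k + 1) (Triv ℤ S)).1 hk
  obtain ⟨al, be, h, _, _, _, hal, _, _, hh, _, _⟩ := hH (MonoidAlgebra ℤ S) (Triv ℤ S) E F
  have hθs : ∀ q s v, (θ q).symm (act s v) = sact s ((θ q).symm v) := by
    intro q s v
    rw [AddEquiv.symm_apply_eq, hθ, AddEquiv.apply_symm_apply]
  have hlin : ∀ (X Y : Type) (A : (X →₀ MonoidAlgebra ℤ S) →ₗ[MonoidAlgebra ℤ S]
      (Y →₀ MonoidAlgebra ℤ S)) (s : S) v, A (sact s v) = sact s (A v) := by
    intro X Y A s v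
    exact A.map_smul _ _
  have hds : ∀ q v, E.d q ((θ (q + 1)).symm v) = (θ q).symm (bd S q v) := by
    intro q v
    rw [AddEquiv.eq_symm_apply, ← hd, AddEquiv.apply_symm_apply]
  refine ⟨{
    Y := F.X (k + 1)
    Y' := F.X k
    finY := hFin (k + 1) le_rfl
    finY' := hFin k (Nat.le_succ k)
    dd := F.d k
    f := (θ (k + 1)).toAddMonoidHom.comp (be (k + 1)).toAddMonoidHom
    g := (al (k + 1)).toAddMonoidHom.comp (θ (k + 1)).symm.toAddMonoidHom
    g' := (al k).toAddMonoidHom.comp (θ k).symm.toAddMonoidHom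
    h := ((θ (k + 2)).toAddMonoidHom.comp (h (k + 1)).toAddMonoidHom).comp
      (θ (k + 1)).symm.toAddMonoidHom
    h' := ((θ (k + 1)).toAddMonoidHom.comp (h k).toAddMonoidHom).comp
      (θ k).symm.toAddMonoidHom
    f_eqv := ?_
    g_eqv := ?_
    g'_eqv := ?_
    h'_eqv := ?_
    hom := ?_
    comm := ?_ }⟩
  · intro s v
    change θ (k + 1) (be (k + 1) (sact s v)) = act s (θ (k + 1) (be (k + 1) v))
    rw [hlin, hθ]
  · intro s v
    change al (k + 1) ((θ (k + 1)).symm (act s v)) = sact s (al (k + 1) ((θ (k + 1)).symm v))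
    rw [hθs, hlin]
  · intro s v
    change al k ((θ k).symm (act s v)) = sact s (al k ((θ k).symm v))
    rw [hθs, hlin]
  · intro s v
    change θ (k + 1) (h k ((θ k).symm (act s v))) = act s (θ (k + 1) (h k ((θ k).symm v)))
    rw [hθs, hlin, hθ]
  · intro v
    change v - θ (k + 1) (be (k + 1) (al (k + 1) ((θ (k + 1)).symm v))) =
      bd S (k + 1) (θ (k + 2) (h (k + 1) ((θ (k + 1)).symm v))) +
        θ (k + 1) (h k ((θ k).symm (bd S k v)))
    have h1 := hh k ((θ (k + 1)).symm v)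
    have h2 := congrArg (θ (k + 1)) h1
    rw [map_sub, map_add, AddEquiv.apply_symm_apply, ← hd, hds] at h2
    exact h2
  · intro v
    change F.d k (al (k + 1) ((θ (k + 1)).symm v)) = al k ((θ k).symm (bd S k v))
    rw [hal, hds]

end Pool.Agent.Lib.MP_b1a3a4_al.MVS.LG.H67
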